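import Pool.Agent.H.MP_70d5b9_an.A

set_option autoImplicit false
open Filter Topology Metric Set Complex

namespace Pool.Agent.Results.MP_2e7b1e_an.Phi

def Adm (α : ℝ) (f : ℂ → ℂ) (γ : ℝ → ℂ) (T : Finset ℝ) (φ : ℝ) : Prop :=
  DifferentiableOn ℂ f (ball 0 1) ∧ InjOn f (ball 0 1) ∧ f 0 = 0 ∧ deriv f 0 = 1 ∧
  ContinuousOn γ (Ici 0) ∧ InjOn γ (Ici 0) ∧ Tendsto (fun t => ‖γ t‖) atTop atTop ∧
  (f '' ball 0 1)ᶜ = γ '' Ici 0 ∧
  (∀ t, 0 < t → t ∉ T → AnalyticAt ℝ γ t ∧ deriv γ t ≠ 0) ∧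
  (∃ θ₀ : ℝ, ∀ t, 0 < t → ∃ θ ∈ Icc θ₀ (θ₀ + α * Real.pi),
    γ t - γ 0 = ‖γ t - γ 0‖ * exp (θ * I)) ∧
  ContinuousOn f (closedBall 0 1 \ {-1}) ∧
  Tendsto (fun z => ‖f z‖) (𝓝[ball 0 1] (-1)) atTop ∧
  φ ∈ Ioo (-Real.pi) Real.pi ∧
  ∀ ζ : ℂ, ‖ζ‖ = 1 → ζ ≠ -1 → (f ζ = γ 0 ↔ ζ = exp (φ * I))

open Pool.Agent.H.MP_70d5b9_an Pool.Agent.H.MP_5011cf_an in
theorem result : ∀ α : ℝ, 0 < α → α ≤ 2 →
    IsLUB {x | ∃ f γ T φ, Adm α f γ T φ ∧ x = |φ|} Real.pi ∧
    IsLUB {x | ∃ f φ, ∃ a b : ℂ, Adm α f (fun t => a + t * b) ∅ φ ∧ x = |φ|} Real.pi := by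
  intro α a0 _
  have p0 := Real.pi_pos
  have lo : ∀ φ, 0 ≤ φ → φ < Real.pi → ∃ f, ∃ a b : ℂ, Adm α f (fun t => a + t * b) ∅ φ := by
    intro φ f0 f1
    have hφ : |φ| < Real.pi := by rwa [abs_of_nonneg f0]
    obtain ⟨u, hu⟩ : ∃ u, u = ex (φ / 2) := ⟨_, rfl⟩
    have u1 : ‖u‖ = 1 := hu ▸ ex_norm _
    have u2 : ex φ = u ^ 2 := by rw [hu, ex, ex, ← exp_nat_mul]; congr 1; push_cast; ring
    have u3 : 0 < u.re := by
      rw [hu, ex, exp_ofReal_mul_I_re]
      exact (lg hφ).1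
    have u0 : u ≠ 0 := norm_pos_iff.mp (by linarith)
    have u4 : u.re * u.re + u.im * u.im = 1 := by rw [← normSq_apply, ← Complex.sq_norm, u1, one_pow]
    have n0 : ∀ z ∈ KK, 1 + z ≠ 0 := fun z hz e => by simpa [e] using KK_re hz
    have n1 : 1 + u ^ 2 ≠ 0 := u2 ▸ n0 _ (ex_KK hφ)
    obtain ⟨b, hb⟩ : ∃ b, b = (2 * (1 + u ^ 2))⁻¹ := ⟨_, rfl⟩
    have b0 : b ≠ 0 := hb ▸ inv_ne_zero (mul_ne_zero two_ne_zero n1)
    obtain ⟨n, hn⟩ : ∃ n : ℂ → ℂ, n = fun z => (u ^ 2 - z) / (u * (1 + z)) := ⟨_, rfl⟩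
    have ni : ∀ z ∈ KK, z * (1 + u * n z) = u * (u - n z) := fun z hz => by
      have := n0 z hz
      rw [hn]
      field_simp
      ring
    have key : ∀ w : ℂ, ‖1 + u * w‖ ^ 2 - ‖u * (u - w)‖ ^ 2 = 4 * u.re * w.re := fun w => by
      rw [norm_mul, u1, one_mul, Complex.sq_norm, Complex.sq_norm, normSq_apply, normSq_apply]
      simp only [add_re, add_im, mul_re, mul_im, one_re, one_im, sub_re, sub_im]
      linear_combination (w.re ^ 2 + w.im ^ 2 - 1) * u4
    have n2 : ∀ z ∈ KK, 1 + u * n z = (1 + u ^ 2) / (1 + z) := fun z hz => by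
      have := n0 z hz
      rw [hn]
      field_simp
      ring
    have np : ∀ z ∈ ball (0 : ℂ) 1, 0 < (n z).re := fun z hz => by
      have k := key (n z)
      have q := pow_pos (norm_pos_iff.mpr (n2 z (ball_KK hz) ▸ div_ne_zero n1 (n0 z (ball_KK hz)))) 2
      have z1 : ‖z‖ ^ 2 < 1 := by nlinarith [mem_ball_zero_iff.mp hz, norm_nonneg z]
      rw [← ni z (ball_KK hz), norm_mul, mul_pow] at k
      exact (mul_pos_iff_of_pos_left (show 0 < 4 * u.re by linarith)).mp (by nlinarith)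
    have ns : ∀ w : ℂ, 0 < w.re → ∃ z ∈ ball (0 : ℂ) 1, n z = w := fun w hw => by
      have k := key w
      have k1 : ‖u * (u - w)‖ < ‖1 + u * w‖ :=
        lt_of_pow_lt_pow_left₀ 2 (norm_nonneg _) (by nlinarith [mul_pos u3 hw])
      have k0 := norm_pos_iff.mp ((norm_nonneg _).trans_lt k1)
      have m : u * (u - w) / (1 + u * w) ∈ ball (0 : ℂ) 1 := by
        rwa [mem_ball_zero_iff, norm_div, div_lt_one (norm_pos_iff.mpr k0)]
      refine ⟨_, m, ?_⟩
      rw [hn, div_eq_iff (mul_ne_zero u0 (n0 _ (ball_KK m)))]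
      field_simp
      ring
    have nd : ∀ z ∈ KK, HasDerivAt (fun z => (u ^ 2 - n z ^ 2) * b)
        (-(2 * n z * ((-1 * (u * (1 + z)) - (u ^ 2 - z) * (u * 1)) / (u * (1 + z)) ^ 2)) * b) z :=
      fun z hz => by
        have := ((hasDerivAt_id z).const_sub (u ^ 2)).fun_div (((hasDerivAt_id z).const_add 1).const_mul u)
          (mul_ne_zero u0 (n0 z hz))
        simpa [hn] using ((this.fun_pow 2).const_sub (u ^ 2)).mul_const b
    have ninj : ∀ y ∈ KK, ∀ z ∈ KK, n y = n z → y = z := fun y hy z hz e => by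
      have := (n2 y hy).symm.trans (e ▸ n2 z hz)
      rw [div_eq_div_iff (n0 y hy) (n0 z hz), mul_right_inj' n1] at this
      exact (add_left_cancel this).symm
    refine ⟨fun z => (u ^ 2 - n z ^ 2) * b, u ^ 2 * b, b, fun z hz =>
      (nd z (ball_KK hz)).differentiableAt.differentiableWithinAt, fun y hy z hz e => ?_,
      by simp [hn]; left; field_simp; ring, ?_, by fun_prop, fun s _ t _ e => ?_, ?_, ?_,
      fun t _ _ => ⟨analyticAt_const.add ((ofRealCLM.analyticAt _).mul analyticAt_const), ?_⟩,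
      ⟨b.arg, fun t t0 => ⟨b.arg, left_mem_Icc.mpr (le_add_of_nonneg_right (by positivity)), ?_⟩⟩,
      fun z hz => (nd z hz).continuousAt.continuousWithinAt, ?_, abs_lt.mp hφ, fun ζ z1 z2 => ?_⟩
    · rcases sq_eq_sq_iff_eq_or_eq_neg.mp (sub_right_injective (mul_right_cancel₀ b0 e)) with h | h
      · exact ninj y (ball_KK hy) z (ball_KK hz) h
      · have := np y hy
        rw [h, neg_re] at this
        linarith [np z hz]
    · rw [(nd 0 (ball_KK (mem_ball_self one_pos))).deriv, hn, hb]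
      field_simp
      ring
    · exact_mod_cast mul_right_cancel₀ b0 (add_left_cancel e)
    · refine tendsto_atTop_mono' _ (mem_of_superset (Ici_mem_atTop 0) fun t ht => ?_)
        (tendsto_atTop_add_const_right _ (-‖u ^ 2 * b‖) (tendsto_id.atTop_mul_const (norm_pos_iff.mpr b0)))
      have := norm_sub_le (u ^ 2 * b + t * b) (u ^ 2 * b)
      rw [add_sub_cancel_left, norm_mul (t : ℂ), norm_real, Real.norm_of_nonneg ht] at this
      exact add_neg_le_iff_le_add.mpr this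
    · ext w
      constructor
      · intro h
        by_contra e
        have sl : u ^ 2 - w / b ∈ slitPlane := by
          by_contra c
          rw [mem_slitPlane_iff, not_or, not_lt, not_not] at c
          refine e ⟨-(u ^ 2 - w / b).re, neg_nonneg.mpr c.1, ?_⟩
          have : ((u ^ 2 - w / b).re : ℂ) = u ^ 2 - w / b := Complex.ext rfl (by simpa using c.2.symm)
          simp only [ofReal_neg, this]
          field_simp
          ring
        obtain ⟨z, hz, e⟩ := ns (exp (log (u ^ 2 - w / b) / 2)) (by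
          rw [exp_re]
          refine mul_pos (Real.exp_pos _) (Real.cos_pos_of_mem_Ioo ⟨?_, ?_⟩) <;>
            simp only [div_ofNat_im, log_im]
          · linarith [neg_pi_lt_arg (u ^ 2 - w / b)]
          · linarith [(arg_le_pi (u ^ 2 - w / b)).lt_of_ne (slitPlane_arg_ne_pi sl)])
        refine h ⟨z, hz, ?_⟩
        simp only [e]
        rw [← exp_nat_mul, Nat.cast_ofNat, mul_div_cancel₀ _ two_ne_zero,
          exp_log (slitPlane_ne_zero sl)]
        field_simp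
        ring
      · rintro ⟨t, ht, rfl⟩ ⟨z, hz, e⟩
        have e1 : n z ^ 2 = -t := mul_right_cancel₀ b0 (by linear_combination -e)
        have r := congrArg re e1
        have i := congrArg im e1
        have := np z hz
        simp only [sq, mul_re, mul_im, neg_re, neg_im, ofReal_re, ofReal_im] at r i
        have i0 : (n z).im = 0 := mul_left_cancel₀ this.ne' (by linarith)
        rw [i0] at r
        nlinarith [mem_Ici.mp ht]
    · have : HasDerivAt (fun t : ℝ => u ^ 2 * b + t * b) b t := by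
        simpa using (((hasDerivAt_id (t : ℂ)).mul_const b).const_add (u ^ 2 * b)).comp_ofReal
      rwa [this.deriv]
    · simp only [ofReal_zero, zero_mul, add_zero, add_sub_cancel_left, norm_mul, norm_real,
        Real.norm_of_nonneg t0.le, ofReal_mul, mul_assoc, norm_mul_exp_arg_mul_I]
    · have t1 : Tendsto (fun z : ℂ => ‖(1 + z) ^ 2‖) (𝓝[ball 0 1] (-1)) (𝓝[>] 0) :=
        tendsto_nhdsWithin_iff.mpr ⟨((show Continuous fun z : ℂ => ‖(1 + z) ^ 2‖ by
          fun_prop).tendsto' _ _ (by simp)).mono_left nhdsWithin_le_nhds,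
          eventually_mem_nhdsWithin.mono fun z hz =>
            norm_pos_iff.mpr (pow_ne_zero 2 (n0 z (ball_KK hz)))⟩
      have t2 : Tendsto (fun z : ℂ => ‖(u ^ 2 * (1 + z) ^ 2 - ((u ^ 2 - z) / u) ^ 2) * b‖)
          (𝓝[ball 0 1] (-1)) (𝓝 ‖((1 + u ^ 2) / u) ^ 2 * b‖) :=
        ((show Continuous fun z : ℂ => ‖(u ^ 2 * (1 + z) ^ 2 - ((u ^ 2 - z) / u) ^ 2) * b‖ by
          fun_prop).tendsto' _ _ (by simp [add_comm])).mono_left nhdsWithin_le_nhds
      refine (t2.pos_mul_atTop (norm_pos_iff.mpr (mul_ne_zero (pow_ne_zero 2 (div_ne_zero n1 u0)) b0))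
        (tendsto_inv_nhdsGT_zero.comp t1)).congr' (eventually_mem_nhdsWithin.mono fun z hz => ?_)
      have := n0 z (ball_KK hz)
      simp only [Function.comp, hn]
      rw [← norm_inv, ← norm_mul]
      congr 1
      field_simp
    · have k := n0 ζ ⟨mem_closedBall_zero_iff.mpr z1.le, z2⟩
      rw [← ex, u2]
      simp only [ofReal_zero, zero_mul, add_zero, mul_left_inj' b0, sub_eq_self, hn,
        pow_eq_zero_iff two_ne_zero, div_eq_zero_iff, mul_ne_zero u0 k, or_false, sub_eq_zero]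
      exact eq_comm
  have lb : ∀ b, (∀ φ, 0 ≤ φ → φ < Real.pi → |φ| ≤ b) → Real.pi ≤ b := fun b h =>
    le_of_forall_lt_imp_le_of_dense fun c hc => by
      rcases le_total c 0 with l | l
      · exact l.trans ((abs_nonneg 0).trans (h 0 le_rfl p0))
      · exact (le_abs_self c).trans (h c l hc)
  refine ⟨⟨?_, fun b hb => lb b fun φ b0 b1 => ?_⟩, ?_, fun b hb => lb b fun φ b0 b1 => ?_⟩
  · rintro _ ⟨f, γ, T, φ, h, rfl⟩
    exact (abs_lt.mpr h.2.2.2.2.2.2.2.2.2.2.2.2.1).le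
  · obtain ⟨f, a, b, h⟩ := lo φ b0 b1
    exact hb ⟨f, _, ∅, φ, h, rfl⟩
  · rintro _ ⟨f, φ, a, b, h, rfl⟩
    exact (abs_lt.mpr h.2.2.2.2.2.2.2.2.2.2.2.2.1).le
  · obtain ⟨f, a, b, h⟩ := lo φ b0 b1
    exact hb ⟨f, φ, a, b, h, rfl⟩

end Pool.Agent.Results.MP_2e7b1e_an.Phi
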